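import Pool.Agent.H37.CND.Stmts

/-!
# Row UNA of board cnd: the action of `EG k p h` on the algebra of `UNI`
-/

set_option autoImplicit false

namespace Pool.CND

theorem una_thm : S_UNA := by
  intro p k K R _ _ _ _ _ _ _ _ _ h a x y hh hx hy hspan huniv
  rcases subsingleton_or_nontrivial R with hs | hn
  · exact ⟨1, fun g => ⟨Subsingleton.elim _ _, Subsingleton.elim _ _⟩⟩
  · haveI : CharP R p := charP_of_injective_algebraMap (algebraMap k R).injective p
    have hext : ∀ f f' : R →ₐ[K] R, f x = f' x → f y = f' y → f = f' := by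
      intro f f' h1 h2
      ext z
      obtain ⟨c, rfl⟩ := hspan z
      simp only [map_sum, map_mul, map_pow, AlgHom.commutes, h1, h2]
    have hbase : ∀ (f : R →ₐ[K] R) (c : k), f (algebraMap k R c) = algebraMap k R c := by
      intro f c
      rw [IsScalarTower.algebraMap_apply k K R, f.commutes]
    have hex : ∀ g : EG k p h, ∃ φ : R →ₐ[K] R, φ x = x + algebraMap k R g.w ∧
        φ y = y + Bf p h (algebraMap k R g.w) x + algebraMap k R g.β := by
      intro g
      have hw : (algebraMap k R g.w) ^ (p ^ (2 * h)) = -algebraMap k R g.w := by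
        rw [← map_pow, g.w_pow, map_neg]
      have hβ : (algebraMap k R g.β) ^ p - algebraMap k R g.β =
          (algebraMap k R g.w) ^ (p ^ h + 1) := by
        rw [← map_pow, ← map_sub, g.β_eq, map_pow]
      refine huniv _ _ ?_ ?_
      · rw [add_pow_char_pow, hw, ← hx]
        ring
      · have e1 := Bf_frob (p := p) h (algebraMap k R g.w) x
        have e2 : ((algebraMap k R g.w) ^ (p ^ h) * x) ^ (p ^ h) =
            -(algebraMap k R g.w * x ^ (p ^ h)) := by
          rw [mul_pow, ← pow_mul, ← pow_add, ← two_mul, hw]
          ring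
        rw [e2] at e1
        rw [add_pow_char, add_pow_char, pow_succ (x + algebraMap k R g.w), add_pow_char_pow]
        rw [pow_succ] at hy hβ
        linear_combination hy + e1 + hβ
    choose φ hφ1 hφ2 using hex
    have hφB : ∀ (g : EG k p h) (c : k), φ g (Bf p h (algebraMap k R c) x) =
        Bf p h (algebraMap k R c) (x + algebraMap k R g.w) := by
      intro g c
      have := Bf_map (p := p) h (φ g : R →+* R) (algebraMap k R c) x
      simp only [AlgHom.coe_toRingHom] at this
      rw [this, hbase, hφ1]
    have hone : φ 1 = AlgHom.id K R := by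
      refine hext _ _ ?_ ?_
      · rw [hφ1, EG.one_w, map_zero, add_zero]
        rfl
      · rw [hφ2, EG.one_w, EG.one_β, map_zero, Bf_zero_left, add_zero, add_zero]
        rfl
    have hmul : ∀ g g' : EG k p h, φ (g * g') = (φ g).comp (φ g') := by
      intro g g'
      refine hext _ _ ?_ ?_
      · rw [hφ1, AlgHom.comp_apply, hφ1, map_add, hφ1, hbase, EG.mul_w, map_add, add_assoc]
      · rw [hφ2, AlgHom.comp_apply, hφ2, map_add, map_add, hφ2, hbase, hφB, EG.mul_w, EG.mul_β,
          map_add, Bf_add_left, Bf_add_right, map_add, map_add,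
          Bf_map (p := p) h (algebraMap k R) g'.w g.w]
        ring
    let ρ : EG k p h →* (R ≃ₐ[K] R) :=
      { toFun := fun g => AlgEquiv.ofAlgHom (φ g) (φ g⁻¹)
          (by rw [← hmul, mul_inv_cancel, hone]) (by rw [← hmul, inv_mul_cancel, hone])
        map_one' := by
          ext z
          show φ 1 z = z
          rw [hone]
          rfl
        map_mul' := fun g g' => by
          ext z
          show φ (g * g') z = φ g (φ g' z)
          rw [hmul]
          rfl }
    exact ⟨ρ, fun g => ⟨hφ1 g, hφ2 g⟩⟩

end Pool.CND
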